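import Mathlib

namespace Pool.Agent.H.MP_8fd344_co

open Set Function

variable {α β α' β' A B A' B' : Type}

noncomputable def hm (E : Set (α × β)) (G : A → B → Prop) : ℕ :=
  Nat.card {φ : (α → A) × (β → B) // ∀ e ∈ E, G (φ.1 e.1) (φ.2 e.2)}

lemma hm_le [Finite α] [Finite β] [Finite A'] [Finite B'] (E : Set (α × β)) {G : A → B → Prop}
    {G' : A' → B' → Prop} {f : A → A'} {g : B → B'} (hf : Injective f) (hg : Injective g)
    (h : ∀ a b, G a b → G' (f a) (g b)) : hm E G ≤ hm E G' :=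
  Nat.card_le_card_of_injective (fun φ => ⟨(f ∘ φ.1.1, g ∘ φ.1.2), fun e he => h _ _ (φ.2 e he)⟩)
    fun _ _ e => Subtype.ext (Prod.ext (hf.comp_left (congrArg (·.1.1) e)) (hg.comp_left (congrArg (·.1.2) e)))

lemma hm_blow [Fintype α] [Fintype β] (E : Set (α × β)) (G : A → B → Prop) (C : Type) :
    hm E (fun (a : A × C) (b : B × C) => G a.1 b.1) = hm E G * Nat.card C ^ (Fintype.card α + Fintype.card β) := by
  rw [pow_add, ← Nat.card_eq_fintype_card, ← Nat.card_eq_fintype_card, ← Nat.card_fun, ← Nat.card_fun, hm, hm,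
    ← Nat.card_prod, ← Nat.card_prod]
  exact Nat.card_congr ⟨fun φ => (⟨(fun x => (φ.1.1 x).1, fun x => (φ.1.2 x).1), φ.2⟩, fun x => (φ.1.1 x).2,
    fun x => (φ.1.2 x).2), fun ψ => ⟨(fun x => (ψ.1.1.1 x, ψ.2.1 x), fun x => (ψ.1.1.2 x, ψ.2.2 x)), ψ.1.2⟩,
    fun _ => rfl, fun _ => rfl⟩

lemma hm_surj [Finite α] [Finite β] [Finite A] [Finite B] {E : Set (α × β)} {f : α → α'} {g : β → β'}
    (hf : Surjective f) (hg : Surjective g) {E' : Set (α' × β')} (h : ∀ e ∈ E, (f e.1, g e.2) ∈ E')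
    (G : A → B → Prop) : hm E' G ≤ hm E G :=
  Nat.card_le_card_of_injective (fun φ => ⟨(φ.1.1 ∘ f, φ.1.2 ∘ g), fun e he => φ.2 _ (h e he)⟩)
    fun _ _ e => Subtype.ext (Prod.ext (hf.injective_comp_right (congrArg (·.1.1) e))
      (hg.injective_comp_right (congrArg (·.1.2) e)))

def su (E : Set (α × β)) (E' : Set (α' × β')) : Set ((α ⊕ α') × (β ⊕ β')) :=
  Prod.map .inl .inl '' E ∪ Prod.map .inr .inr '' E'

lemma hm_su (E : Set (α × β)) (E' : Set (α' × β')) (G : A → B → Prop) : hm (su E E') G = hm E G * hm E' G := by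
  rw [hm, hm, hm, ← Nat.card_prod]
  refine Nat.card_congr ⟨fun φ => (⟨(φ.1.1 ∘ .inl, φ.1.2 ∘ .inl), fun e he => φ.2 _ (.inl ⟨e, he, rfl⟩)⟩,
    ⟨(φ.1.1 ∘ .inr, φ.1.2 ∘ .inr), fun e he => φ.2 _ (.inr ⟨e, he, rfl⟩)⟩), fun ψ =>
    ⟨(Sum.elim ψ.1.1.1 ψ.2.1.1, Sum.elim ψ.1.1.2 ψ.2.1.2), ?_⟩, fun φ => ?_, fun _ => rfl⟩
  · rintro _ (⟨e, he, rfl⟩ | ⟨e, he, rfl⟩)
    exacts [ψ.1.2 e he, ψ.2.2 e he]
  · simp

def Up (E : Set (α × β)) (ρ : ℤ) : Prop := ∀ (A B : Type) (f : α → A) (g : β → B),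
  2 * ((range f).ncard + (range g).ncard : ℤ) ≤ ρ + (Prod.map f g '' E).ncard

lemma Up.su [Finite α] [Finite β] [Finite α'] [Finite β'] {E : Set (α × β)} {E' : Set (α' × β')} {ρ ρ' : ℤ}
    (h : Up E ρ) (h' : Up E' ρ') : Up (su E E') (ρ + ρ') := fun A B f g => by
  classical
  have e1 : range f = range (f ∘ .inl) ∪ range (f ∘ .inr) := Sum.range_eq f
  have e2 : range g = range (g ∘ .inl) ∪ range (g ∘ .inr) := Sum.range_eq g
  have e3 : Prod.map f g '' MP_8fd344_co.su E E' =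
      Prod.map (f ∘ .inl) (g ∘ .inl) '' E ∪ Prod.map (f ∘ .inr) (g ∘ .inr) '' E' := by
    simp only [MP_8fd344_co.su, image_union, image_image]
    rfl
  have h2 := h' A B (f ∘ .inr) (g ∘ .inr)
  have hD : ∀ e ∈ Prod.map (f ∘ .inl) (g ∘ .inl) '' E ∩ Prod.map (f ∘ .inr) (g ∘ .inr) '' E',
      e.1 ∈ range (f ∘ .inl) ∩ range (f ∘ .inr) ∧ e.2 ∈ range (g ∘ .inl) ∩ range (g ∘ .inr) := by
    rintro _ ⟨⟨a, -, rfl⟩, b, -, hb⟩
    exact ⟨⟨⟨_, rfl⟩, _, congrArg Prod.fst hb⟩, ⟨_, rfl⟩, _, congrArg Prod.snd hb⟩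
  rw [e1, e2, e3]
  have i1 := ncard_union_add_ncard_inter (range (f ∘ .inl)) (range (f ∘ .inr)) (finite_range _) (finite_range _)
  have i2 := ncard_union_add_ncard_inter (range (g ∘ .inl)) (range (g ∘ .inr)) (finite_range _) (finite_range _)
  have i3 := ncard_union_add_ncard_inter (Prod.map (f ∘ .inl) (g ∘ .inl) '' E)
    (Prod.map (f ∘ .inr) (g ∘ .inr) '' E') (toFinite _) (toFinite _)
  generalize range (f ∘ .inr) = A2, range (g ∘ .inr) = B2, Prod.map (f ∘ .inr) (g ∘ .inr) '' E' = D2,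
    f ∘ Sum.inl = f1, g ∘ Sum.inl = g1 at *
  rcases (Prod.map f1 g1 '' E ∩ D2).eq_empty_or_nonempty with h0 | ⟨s, hs⟩
  · have := h A B f1 g1
    rw [h0, ncard_empty] at i3
    omega
  obtain ⟨c, hc⟩ : ∃ c : A → A, ∀ a, c a = if a ∈ range f1 ∩ A2 then s.1 else a := ⟨_, fun _ => rfl⟩
  obtain ⟨d, hd⟩ : ∃ d : B → B, ∀ a, d a = if a ∈ range g1 ∩ B2 then s.2 else a := ⟨_, fun _ => rfl⟩
  have h1 := h A B (c ∘ f1) (d ∘ g1)
  have j1 : (insert s.1 (range f1 \ (range f1 ∩ A2))).ncard ≤ (range (c ∘ f1)).ncard := by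
    refine ncard_le_ncard ?_ (finite_range _)
    rintro a (rfl | ⟨⟨x, rfl⟩, h3⟩)
    · obtain ⟨x, hx⟩ := (hD s hs).1.1
      exact ⟨x, by rw [comp, hc, hx, if_pos (hD s hs).1]⟩
    · exact ⟨x, by rw [comp, hc, if_neg h3]⟩
  have j2 : (range g1 \ (range g1 ∩ B2)).ncard ≤ (range (d ∘ g1)).ncard := by
    refine ncard_le_ncard ?_ (finite_range _)
    rintro a ⟨⟨x, rfl⟩, h3⟩
    exact ⟨x, by rw [comp, hd, if_neg h3]⟩
  have j3 : (Prod.map (c ∘ f1) (d ∘ g1) '' E).ncard ≤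
      (insert s (Prod.map c d '' (Prod.map f1 g1 '' E \ (Prod.map f1 g1 '' E ∩ D2)))).ncard := by
    refine ncard_le_ncard ?_ (toFinite _)
    rintro _ ⟨e, he, rfl⟩
    by_cases h3 : Prod.map f1 g1 e ∈ Prod.map f1 g1 '' E ∩ D2
    · exact .inl (Prod.ext ((hc _).trans (if_pos (hD _ h3).1)) ((hd _).trans (if_pos (hD _ h3).2)))
    · exact .inr ⟨_, ⟨⟨e, he, rfl⟩, h3⟩, rfl⟩
  rw [ncard_insert_of_notMem (fun h => h.2 (hD s hs).1) (toFinite _)] at j1
  have j4 := ncard_insert_le s (Prod.map c d '' (Prod.map f1 g1 '' E \ (Prod.map f1 g1 '' E ∩ D2)))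
  have j5 := ncard_image_le (f := Prod.map c d) (s := Prod.map f1 g1 '' E \ (Prod.map f1 g1 '' E ∩ D2)) (toFinite _)
  have k1 := ncard_sdiff_add_ncard_of_subset (inter_subset_left (s := range f1) (t := A2)) (toFinite _)
  have k2 := ncard_sdiff_add_ncard_of_subset (inter_subset_left (s := range g1) (t := B2)) (toFinite _)
  have k3 := ncard_sdiff_add_ncard_of_subset (inter_subset_left (s := Prod.map f1 g1 '' E) (t := D2)) (toFinite _)
  omega

open Classical in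
lemma cnt {ι : Type} [Fintype ι] [DecidableEq ι] (q : ℕ) [NeZero q] (S : Set ι) :
    ∑ ω : ι → Fin q, (if ∀ e ∈ S, ω e = 0 then (1 : ℝ) else 0) = q ^ Fintype.card ι / q ^ S.ncard := by
  have h1 : ∀ ω : ι → Fin q, (if ∀ e ∈ S, ω e = 0 then (1 : ℝ) else 0) =
      ∏ e, if e ∈ S then (if ω e = 0 then 1 else 0) else 1 := fun ω => by
    split_ifs with h
    · exact (Finset.prod_eq_one fun e _ => by by_cases h' : e ∈ S <;> simp [h', h e]).symm
    · push Not at h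
      obtain ⟨e, h1, h2⟩ := h
      exact (Finset.prod_eq_zero (Finset.mem_univ e) (by simp [h1, h2])).symm
  have hq : (q : ℝ) ≠ 0 := Nat.cast_ne_zero.2 (NeZero.ne q)
  simp only [h1]
  rw [← Fintype.piFinset_univ, ← Finset.prod_univ_sum (t := fun _ => Finset.univ)
    (f := fun e (x : Fin q) => if e ∈ S then (if x = 0 then (1 : ℝ) else 0) else 1), eq_div_iff (by positivity),
    ncard_eq_toFinset_card' S, ← Finset.prod_const, ← Finset.card_univ, ← Finset.prod_const,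
    show ∏ _e ∈ S.toFinset, (q : ℝ) = ∏ e, if e ∈ S then (q : ℝ) else 1 by
      rw [← Finset.prod_filter]; congr 1; ext; simp, ← Finset.prod_mul_distrib]
  exact Finset.prod_congr rfl fun e _ => by by_cases h : e ∈ S <;> simp [h]

def rg (q : ℕ) [NeZero q] (ω : Fin (q ^ 2) × Fin (q ^ 2) → Fin q) (a b : Fin (q ^ 2)) : Prop := ω (a, b) = 0

noncomputable def av (q : ℕ) (X : (Fin (q ^ 2) × Fin (q ^ 2) → Fin q) → ℝ) : ℝ :=
  (∑ ω, X ω) / q ^ Fintype.card (Fin (q ^ 2) × Fin (q ^ 2))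

open Classical in
lemma av_hm [Fintype α] [Fintype β] (E : Set (α × β)) (q : ℕ) [NeZero q] :
    av q (fun ω => hm E (rg q ω)) = ∑ φ : (α → Fin (q ^ 2)) × (β → Fin (q ^ 2)),
      ((q : ℝ) ^ (Prod.map φ.1 φ.2 '' E).ncard)⁻¹ := by
  have hq : (q : ℝ) ≠ 0 := Nat.cast_ne_zero.2 (NeZero.ne q)
  simp only [av, hm, Nat.card_eq_fintype_card, Fintype.card_subtype, Finset.card_filter, Nat.cast_sum,
    Nat.cast_ite, Nat.cast_one, Nat.cast_zero]
  rw [Finset.sum_comm, Finset.sum_div]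
  refine Finset.sum_congr rfl fun φ _ => ?_
  have := cnt q (Prod.map φ.1 φ.2 '' E)
  simp only [forall_mem_image] at this
  rw [div_eq_iff (by positivity), inv_mul_eq_div, ← this]
  exact Finset.sum_congr rfl fun ω _ => if_congr Iff.rfl rfl rfl

open Classical in
lemma maps (N : ℕ) (hN : 0 < N) (α : Type) [i : Fintype α] :
    ∑ f : α → Fin N, ((N : ℝ) ^ (range f).ncard)⁻¹ ≤ (Fintype.card α).factorial := by
  refine Fintype.induction_empty_option (P := fun α _ => ∑ f : α → Fin N, ((N : ℝ) ^ (range f).ncard)⁻¹ ≤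
    (Fintype.card α).factorial) (fun α β _ e ih => ?_) (by simp [range_eq_empty]) (fun α _ ih => ?_) α
  · letI := Fintype.ofEquiv β e.symm
    rw [← Fintype.card_congr e, ← (e.arrowCongr (Equiv.refl _)).sum_comp]
    convert ih using 5 with f
    exact e.symm.surjective.range_comp f
  · letI : DecidableEq (Option α) := fun a b => propDecidable (a = b)
    rw [← Equiv.piOptionEquivProd.symm.sum_comp, Fintype.sum_prod_type_right, Fintype.card_option,
      Nat.factorial_succ, Nat.cast_mul]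
    refine le_trans ?_ (mul_le_mul_of_nonneg_left ih (by positivity))
    rw [Finset.mul_sum]
    refine Finset.sum_le_sum fun f _ => ?_
    have e : ∀ x : Fin N, range (Equiv.piOptionEquivProd.symm (x, f) : Option α → Fin N) = insert x (range f) :=
      fun x => by rw [Option.range_eq]; rfl
    simp only [e]
    have h1 : ∀ x : Fin N, ((N : ℝ) ^ (insert x (range f)).ncard)⁻¹ ≤
        ((if x ∈ range f then 1 else 0) + (N : ℝ)⁻¹) * ((N : ℝ) ^ (range f).ncard)⁻¹ := fun x => by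
      split_ifs with h
      · rw [insert_eq_of_mem h]
        exact le_mul_of_one_le_left (by positivity) (le_add_of_nonneg_right (by positivity))
      · rw [ncard_insert_of_notMem h, pow_succ, mul_inv, zero_add, mul_comm]
    refine (Finset.sum_le_sum fun x _ => h1 x).trans ?_
    rw [← Finset.sum_mul, Finset.sum_add_distrib, Finset.sum_boole, Finset.sum_const, Finset.card_univ,
      Fintype.card_fin, nsmul_eq_mul, mul_inv_cancel₀ (by positivity)]
    refine mul_le_mul_of_nonneg_right ?_ (by positivity)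
    have : (Finset.univ.filter fun x => x ∈ range f).card ≤ Fintype.card α :=
      (Finset.card_le_card (t := Finset.univ.image f) fun x => by simp).trans Finset.card_image_le
    exact_mod_cast Nat.succ_le_succ this

abbrev Fn := ∀ N : ℕ, (Fin N → Fin N → Prop) → ℕ

def PU (X : Fn) (ρ : ℤ) : Prop := ∃ (α β : Type) (_ : Fintype α) (_ : Fintype β) (E : Set (α × β)),
  (∀ N G, X N G ≤ hm E G) ∧ Up E ρ

def PL (X : Fn) (ρ : ℤ) : Prop := ∃ (α β : Type) (_ : Fintype α) (_ : Fintype β) (E : Set (α × β)),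
  (∀ N G, hm E G ≤ X N G) ∧ ρ + E.ncard ≤ 2 * (Fintype.card α + Fintype.card β : ℤ)

lemma PU.mul {X Y : Fn} {ρ σ : ℤ} (h : PU X ρ) (h' : PU Y σ) : PU (fun N G => X N G * Y N G) (ρ + σ) := by
  obtain ⟨α, β, _, _, E, h1, h2⟩ := h
  obtain ⟨α', β', _, _, E', h3, h4⟩ := h'
  exact ⟨_, _, inferInstance, inferInstance, su E E', fun N G => hm_su E E' G ▸ Nat.mul_le_mul (h1 N G) (h3 N G),
    h2.su h4⟩

lemma PL.mul {X Y : Fn} {ρ σ : ℤ} (h : PL X ρ) (h' : PL Y σ) : PL (fun N G => X N G * Y N G) (ρ + σ) := by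
  obtain ⟨α, β, _, _, E, h1, h2⟩ := h
  obtain ⟨α', β', _, _, E', h3, h4⟩ := h'
  refine ⟨_, _, inferInstance, inferInstance, su E E', fun N G => hm_su E E' G ▸ Nat.mul_le_mul (h1 N G) (h3 N G), ?_⟩
  have i1 := ncard_union_le (Prod.map (Sum.inl (β := α')) (Sum.inl (β := β')) '' E) (Prod.map .inr .inr '' E')
  have i2 := ncard_image_le (f := Prod.map (Sum.inl (β := α')) (Sum.inl (β := β'))) (s := E)
  have i3 := ncard_image_le (f := Prod.map (Sum.inr (α := α)) (Sum.inr (α := β))) (s := E')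
  simp only [su, Fintype.card_sum]
  omega

lemma prods (X : ℕ → Fn) (ρ : ℕ → ℤ) (h : ∀ i, PU (X i) (ρ i)) (h' : ∀ i, PL (X i) (ρ i)) (n : ℕ) :
    PU (fun N G => ∏ i ∈ Finset.range n, X i N G) (∑ i ∈ Finset.range n, ρ i) ∧
      PL (fun N G => ∏ i ∈ Finset.range n, X i N G) (∑ i ∈ Finset.range n, ρ i) := by
  induction n with
  | zero => exact ⟨⟨Empty, Empty, inferInstance, inferInstance, ∅, by simp [hm], fun _ _ _ _ => by
      simp [range_eq_empty]⟩, Empty, Empty, inferInstance, inferInstance, ∅, by simp [hm], by simp⟩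
  | succ n ih =>
    simp only [Finset.prod_range_succ, Finset.sum_range_succ]
    exact ⟨ih.1.mul (h n), ih.2.mul (h' n)⟩

lemma av_mono {q : ℕ} {X Y} (h : ∀ ω, X ω ≤ Y ω) : av q X ≤ av q Y :=
  div_le_div_of_nonneg_right (Finset.sum_le_sum fun ω _ => h ω) (by positivity)

lemma PU.av {X : Fn} {ρ : ℤ} (h : PU X ρ) : ∃ C : ℝ, 0 ≤ C ∧ ∀ (q : ℕ) [NeZero q],
    av q (fun ω => X _ (rg q ω)) ≤ C * (q : ℝ) ^ ρ := by
  classical
  obtain ⟨α, β, _, _, E, h1, h2⟩ := h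
  refine ⟨(Fintype.card α).factorial * (Fintype.card β).factorial, by positivity, fun q _ => ?_⟩
  have hq : (1 : ℝ) ≤ q := Nat.one_le_cast.2 (NeZero.pos q)
  refine (av_mono fun ω => Nat.cast_le.2 (h1 _ _)).trans ?_
  have hN : 0 < q ^ 2 := pow_pos (NeZero.pos q) 2
  refine le_trans ?_ (mul_le_mul_of_nonneg_right (mul_le_mul (maps _ hN α) (maps _ hN β) (by positivity)
    (by positivity)) (by positivity))
  rw [av_hm, Finset.sum_mul_sum, ← Fintype.sum_prod_type', Finset.sum_mul]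
  refine Finset.sum_le_sum fun φ _ => ?_
  have := h2 _ _ φ.1 φ.2
  rw [Nat.cast_pow, ← pow_mul, ← pow_mul, ← zpow_natCast, ← zpow_natCast, ← zpow_natCast, ← zpow_neg, ← zpow_neg,
    ← zpow_neg, ← zpow_add₀ (by positivity), ← zpow_add₀ (by positivity)]
  exact zpow_le_zpow_right₀ hq (by push_cast; omega)

lemma PL.av {X : Fn} {ρ : ℤ} (h : PL X ρ) (q : ℕ) [NeZero q] : (q : ℝ) ^ ρ ≤ av q (fun ω => X _ (rg q ω)) := by
  classical
  obtain ⟨α, β, _, _, E, h1, h2⟩ := h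
  have hq : (1 : ℝ) ≤ q := Nat.one_le_cast.2 (NeZero.pos q)
  refine le_trans ?_ (av_mono fun ω => Nat.cast_le.2 (h1 _ _))
  rw [av_hm]
  refine le_trans ?_ (Finset.card_nsmul_le_sum _ _ ((q : ℝ) ^ E.ncard)⁻¹ fun φ _ =>
    inv_anti₀ (by positivity) (pow_le_pow_right₀ hq (ncard_image_le (toFinite _))))
  simp only [Finset.card_univ, Fintype.card_prod, Fintype.card_fun, Fintype.card_fin, nsmul_eq_mul]
  push_cast
  rw [← pow_add, ← pow_mul, ← zpow_natCast, ← zpow_natCast, ← zpow_neg, ← zpow_add₀ (by positivity)]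
  exact zpow_le_zpow_right₀ hq (by push_cast; omega)

lemma exist (X : ℕ → Fn) (ρ : ℕ → ℤ) (h : ∀ i, PU (X i) (ρ i)) (h' : ∀ i, PL (X i) (ρ i)) (n : ℕ) :
    ∃ K : ℝ, 1 ≤ K ∧ ∀ q : ℕ, 0 < q → ∃ G : Fin (q ^ 2) → Fin (q ^ 2) → Prop, ∀ i < n,
      K⁻¹ ≤ X i _ G / (q : ℝ) ^ ρ i ∧ X i _ G / (q : ℝ) ^ ρ i ≤ K := by
  obtain ⟨h1, h2⟩ := prods X ρ h h' n
  choose C C0 hC using fun i => (h1.mul (h i)).av
  obtain ⟨K, hK⟩ : ∃ K, K = 2 * ∑ i ∈ Finset.range n, C i + 1 := ⟨_, rfl⟩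
  have hS := Finset.sum_nonneg fun i (_ : i ∈ Finset.range n) => C0 i
  have K1 : 1 ≤ K := by linarith
  refine ⟨2 * K ^ (n + 1), by nlinarith [one_le_pow₀ K1 (n := n + 1)], fun q hq => ?_⟩
  haveI : NeZero q := ⟨hq.ne'⟩
  have hq' : (0 : ℝ) < q := Nat.cast_pos.2 hq
  obtain ⟨R, hR⟩ : ∃ R, R = (q : ℝ) ^ ∑ i ∈ Finset.range n, ρ i := ⟨_, rfl⟩
  have R0 : 0 < R := by rw [hR]; positivity
  obtain ⟨ω, hω⟩ : ∃ ω, R / 2 ≤ (∏ i ∈ Finset.range n, X i _ (rg q ω) : ℕ) *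
      (1 - ∑ i ∈ Finset.range n, X i _ (rg q ω) / (q : ℝ) ^ ρ i / K) := by
    by_contra! h3
    have h4 := div_lt_div_of_pos_right (Finset.sum_lt_sum_of_nonempty Finset.univ_nonempty fun ω _ => h3 ω)
      (c := (q : ℝ) ^ Fintype.card (Fin (q ^ 2) × Fin (q ^ 2))) (by positivity)
    have h5 := h2.av q
    have h6 : ∑ i ∈ Finset.range n, av q (fun ω => ((∏ i ∈ Finset.range n, X i _ (rg q ω)) * X i _ (rg q ω) : ℕ)) /
        (q : ℝ) ^ ρ i / K ≤ ∑ i ∈ Finset.range n, C i * R / K := Finset.sum_le_sum fun i _ => by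
      refine div_le_div_of_nonneg_right ?_ (by positivity)
      rw [div_le_iff₀ (by positivity), hR, mul_assoc, ← zpow_add₀ hq'.ne']
      exact hC i q
    rw [← Finset.sum_div (f := fun i => C i * R), ← Finset.sum_mul] at h6
    have h7 : (∑ i ∈ Finset.range n, C i) * R / K ≤ R / 2 := by
      rw [div_le_div_iff₀ (by positivity) (by positivity)]
      nlinarith
    simp only [mul_sub, mul_one, Finset.mul_sum, Finset.sum_sub_distrib, sub_div, Finset.sum_const,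
      Finset.card_univ, Fintype.card_fun, Fintype.card_fin, nsmul_eq_mul, Nat.cast_pow] at h4
    rw [mul_div_cancel_left₀ _ (by positivity), Finset.sum_comm, Finset.sum_div] at h4
    simp only [av, Finset.sum_div, Nat.cast_mul] at h5 h6 h4
    rw [← hR] at h5
    have h8 := h6.trans h7
    refine absurd h4 (not_lt.2 (le_trans (by linarith) (sub_le_sub h5 (le_of_eq_of_le ?_ h8))))
    exact Finset.sum_congr rfl fun i _ => Finset.sum_congr rfl fun ω _ => by ring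
  refine ⟨rg q ω, ?_⟩
  have e : ((∏ i ∈ Finset.range n, X i _ (rg q ω) : ℕ) : ℝ) = R * ∏ i ∈ Finset.range n, X i _ (rg q ω) / (q : ℝ) ^ ρ i := by
    have : ∀ m, (q : ℝ) ^ ∑ i ∈ Finset.range m, ρ i = ∏ i ∈ Finset.range m, (q : ℝ) ^ ρ i := fun m => by
      induction m with
      | zero => simp
      | succ m ih => rw [Finset.sum_range_succ, Finset.prod_range_succ, zpow_add₀ hq'.ne', ih]
    rw [Finset.prod_div_distrib, hR, this, mul_div_cancel₀ _ (by positivity), Nat.cast_prod]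
  rw [e] at hω
  obtain ⟨x, hx⟩ : ∃ x : ℕ → ℝ, ∀ i, X i _ (rg q ω) / (q : ℝ) ^ ρ i = x i := ⟨_, fun _ => rfl⟩
  have x0 : ∀ i, 0 ≤ x i := fun i => by rw [← hx]; positivity
  simp only [hx] at hω ⊢
  have p0 : 0 ≤ ∏ i ∈ Finset.range n, x i := Finset.prod_nonneg fun i _ => x0 i
  have s0 : 0 ≤ ∑ i ∈ Finset.range n, x i / K := Finset.sum_nonneg fun i _ => div_nonneg (x0 i) (by positivity)
  have h3 : 1 / 2 ≤ (∏ i ∈ Finset.range n, x i) * (1 - ∑ i ∈ Finset.range n, x i / K) :=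
    le_of_mul_le_mul_left (by linarith) R0
  have h4 : ∑ i ∈ Finset.range n, x i / K ≤ 1 := by
    by_contra! h
    nlinarith
  have h5 : ∀ i ∈ Finset.range n, x i ≤ K := fun i hi => (div_le_one (by positivity)).1
    ((Finset.single_le_sum (fun i _ => div_nonneg (x0 i) (by positivity)) hi).trans h4)
  intro i hi
  have hi := Finset.mem_range.2 hi
  have h6 : ∏ j ∈ (Finset.range n).erase i, x j ≤ K ^ (n + 1) :=
    (Finset.prod_le_prod (fun j _ => x0 j) fun j hj => h5 j (Finset.mem_of_mem_erase hj)).trans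
      ((Finset.prod_const K).trans_le (pow_le_pow_right₀ K1 ((Finset.card_erase_le).trans (by simp))))
  refine ⟨?_, (h5 i hi).trans (by linarith [le_self_pow₀ K1 (n := n + 1) n.succ_ne_zero])⟩
  rw [← Finset.mul_prod_erase _ _ hi] at h3 p0
  rw [inv_le_iff_one_le_mul₀ (by positivity)]
  nlinarith [mul_le_mul_of_nonneg_left h6 (x0 i), mul_nonneg p0 s0]

end Pool.Agent.H.MP_8fd344_co
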